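import Pool.Agent.W322.HB.Tools

/-!
# Project HB: cancelling small elements (task C2)
-/

set_option autoImplicit false

namespace Pool.Agent.W405.HB

open Finset Pool.Agent.H115R3.DT Pool.Agent.W322.HB

theorem uniq {A B a b : ℤ} (h1 : a * A = B) (h2 : b * A = B) (hB : B ≠ 0) : a = b := by
  have hA : A ≠ 0 := by
    rintro rfl
    apply hB
    rw [← h1, mul_zero]
  exact mul_right_cancel₀ hA (h1.trans h2.symm)

/-- the choice of the parameter -/
theorem choose_t {C κ Q u T S g₁ g₂ g₃ G : ℕ}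
    (h : Pool.Agent.W322.HB.Num C κ Q u T S g₁ g₂ g₃ G) {N : ℕ} (hN : N + 1 ≤ C)
    (P : ℕ → ℕ) (hP : ∀ i < N, 1 ≤ P i ∧ P i ≤ κ) {x d : ℕ} (hx : 1 ≤ x) (hxS : x ≤ S) (hd : 1 ≤ d)
    (hdS : d ≤ S) (hxd : d ≠ x) {D : ℤ} (hD : D * Q = (d : ℤ) - x) (A : Finset ℕ)
    (hA : (A.filter (fun e => ¬ Nat.Coprime e G)).card ≤ u) :
    ∃ t t' z : ℕ, S + 1 ≤ t ∧ t < S + 1 + T ∧ 1 ≤ t' ∧ (t' : ℤ) = t + D ∧ (z : ℤ) = t * Q - x ∧
      1 ≤ z ∧ (∀ i < N, t * P i ∉ A) ∧ (∀ i < N, t' * P i ∉ A) ∧ z ∉ A ∧ (∀ i < N, t * P i ≠ z) ∧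
      (∀ i < N, t' * P i ≠ z) ∧ ∀ i < N, ∀ k < N, t' * P i ≠ t * P k := by
  have hQ := h.hQ
  have hG := h.Gpos
  have hQ' : (1 : ℤ) ≤ Q := by exact_mod_cast hQ
  have hDS : |D| ≤ S := by
    have h1 : |D| * Q = |(d : ℤ) - x| := by rw [← hD, abs_mul, Nat.abs_cast]
    have h2 : |(d : ℤ) - x| ≤ S := by
      rw [abs_le]
      constructor <;> omega
    nlinarith [abs_nonneg D]
  have hDS' := abs_le.1 hDS
  have hD0 : D ≠ 0 := by
    rintro rfl
    apply hxd
    rw [zero_mul] at hD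
    omega
  obtain ⟨r2, hr2⟩ : ∃ r2 : ℕ, (g₂ : ℤ) ∣ r2 + D := by
    refine ⟨((-D) % g₂).toNat, ?_⟩
    have h1 : 0 ≤ (-D) % (g₂ : ℤ) := Int.emod_nonneg _ (by have := h.p2.pos; omega)
    rw [Int.toNat_of_nonneg h1]
    have h2 := Int.emod_add_mul_ediv (-D) g₂
    exact ⟨-((-D) / g₂), by linarith⟩
  obtain ⟨r3, hr3⟩ : ∃ r3 : ℕ, r3 * Q ≡ x [MOD g₃] := by
    obtain ⟨y, hy1, hy2⟩ := Nat.chineseRemainder (h.cop hQ h.hQκ).2.2 x 0
    obtain ⟨r, hr⟩ := (Nat.modEq_zero_iff_dvd).1 hy2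
    exact ⟨r, by rw [mul_comm, ← hr]; exact hy1⟩
  obtain ⟨t0, ht0, ht0', ht1, ht2, ht3⟩ := crt3 g₁ g₂ g₃ 0 r2 r3 (S + 1) h.c12 h.c13 h.c23
    h.p1.pos h.p2.pos h.p3.pos
  rw [← h.hG] at ht0'
  have e1 : g₁ ∣ t0 := (Nat.modEq_zero_iff_dvd).1 ht1
  have e2 : (g₂ : ℤ) ∣ t0 + D := by
    have h1 := (Nat.modEq_iff_dvd).1 ht2
    have h2 := dvd_sub hr2 h1
    have h3 : (r2 : ℤ) + D - (r2 - t0) = t0 + D := by ring
    rwa [h3] at h2
  have e3 : (g₃ : ℤ) ∣ t0 * Q - x := by
    have h1 : t0 * Q ≡ x [MOD g₃] := (ht3.mul_right Q).trans hr3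
    have h2 := (Nat.modEq_iff_dvd).1 h1
    have h3 : (t0 : ℤ) * Q - x = -((x : ℤ) - ((t0 * Q : ℕ) : ℤ)) := by push_cast; ring
    rw [h3]
    exact (dvd_neg).2 h2
  have G1 : g₁ ∣ G := by rw [h.hG, mul_assoc]; exact dvd_mul_right _ _
  have G2 : g₂ ∣ G := by rw [h.hG]; exact (dvd_mul_left _ _).trans (dvd_mul_right _ _)
  have G3 : g₃ ∣ G := by rw [h.hG]; exact dvd_mul_left _ _
  obtain ⟨s0, hs0⟩ : ∃ s0 : ℕ, (s0 : ℤ) = t0 + D := ⟨((t0 : ℤ) + D).toNat, by
    rw [Int.toNat_of_nonneg]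
    omega⟩
  have hs1 : 1 ≤ s0 := by omega
  have htQ : t0 ≤ t0 * Q := Nat.le_mul_of_pos_right _ hQ
  obtain ⟨z0, hz0⟩ : ∃ z0 : ℕ, z0 + x = t0 * Q := ⟨t0 * Q - x, by omega⟩
  have hz1 : 1 ≤ z0 := by omega
  have hz0' : (z0 : ℤ) = t0 * Q - x := by
    have : ((z0 + x : ℕ) : ℤ) = ((t0 * Q : ℕ) : ℤ) := by rw [hz0]
    push_cast at this
    linarith
  have e2' : g₂ ∣ s0 := by
    rw [← hs0] at e2
    exact_mod_cast e2
  have e3' : g₃ ∣ z0 := by
    rw [← hz0'] at e3
    exact_mod_cast e3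
  obtain ⟨J, hJ⟩ : ∃ J, J + 1 = 2 * C * u + (C + 2) ^ 2 := by
    refine ⟨2 * C * u + (C + 2) ^ 2 - 1, ?_⟩
    have : 1 ≤ (C + 2) ^ 2 := Nat.one_le_pow _ _ (by omega)
    omega
  have hGJ : G * (J + 1) ≤ T := by
    refine le_trans ?_ h.hT
    rw [← hJ]
    exact Nat.mul_le_mul_right _ (Nat.le_mul_of_pos_right _ h.hκ)
  -- the bad sets
  have b1 : ∀ i < N, ((range (J + 1)).filter (fun j => (t0 + G * j) * P i ∈ A)).card ≤ u := by
    intro i hi
    refine bad_card G u J A hA (fun j => (t0 + G * j) * P i) ?_ ?_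
    · intro a _ b _ hab
      have h1 := Nat.eq_of_mul_eq_mul_right (hP i hi).1 hab
      exact Nat.eq_of_mul_eq_mul_left hG (by omega)
    · intro j _
      exact h.nc (Or.inl (Dvd.dvd.mul_right (dvd_add e1 (Dvd.dvd.mul_right G1 _)) _))
  have b2 : ∀ i < N, ((range (J + 1)).filter (fun j => (s0 + G * j) * P i ∈ A)).card ≤ u := by
    intro i hi
    refine bad_card G u J A hA (fun j => (s0 + G * j) * P i) ?_ ?_
    · intro a _ b _ hab
      have h1 := Nat.eq_of_mul_eq_mul_right (hP i hi).1 hab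
      exact Nat.eq_of_mul_eq_mul_left hG (by omega)
    · intro j _
      exact h.nc (Or.inr (Or.inl (Dvd.dvd.mul_right (dvd_add e2' (Dvd.dvd.mul_right G2 _)) _)))
  have b3 : ((range (J + 1)).filter (fun j => z0 + G * Q * j ∈ A)).card ≤ u := by
    refine bad_card G u J A hA (fun j => z0 + G * Q * j) ?_ ?_
    · intro a _ b _ hab
      exact Nat.eq_of_mul_eq_mul_left (Nat.mul_pos hG hQ) (by omega)
    · intro j _
      exact h.nc (Or.inr (Or.inr (dvd_add e3' (by
        rw [mul_assoc]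
        exact Dvd.dvd.mul_right G3 _))))
  have key : ∀ a b : ℕ, (t0 : ℤ) + G * a = t0 + G * b → a = b := by
    intro a b hab
    have h1 : (G : ℤ) * a = G * b := by linarith
    have h2 : G * a = G * b := by exact_mod_cast h1
    exact Nat.eq_of_mul_eq_mul_left hG h2
  have b4 : ∀ i < N, ((range (J + 1)).filter
      (fun j => (t0 + G * j) * P i = z0 + G * Q * j)).card ≤ 1 := by
    intro i hi
    refine bad_one J _ ?_
    intro a b ha hb
    have ha' : ((t0 : ℤ) + G * a) * (Q - P i) = x := by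
      have h1 : (((t0 + G * a) * P i : ℕ) : ℤ) = ((z0 + G * Q * a : ℕ) : ℤ) := by rw [ha]
      push_cast at h1
      rw [hz0'] at h1
      linarith
    have hb' : ((t0 : ℤ) + G * b) * (Q - P i) = x := by
      have h1 : (((t0 + G * b) * P i : ℕ) : ℤ) = ((z0 + G * Q * b : ℕ) : ℤ) := by rw [hb]
      push_cast at h1
      rw [hz0'] at h1
      linarith
    exact key a b (uniq ha' hb' (by omega))
  have b5 : ∀ i < N, ((range (J + 1)).filter
      (fun j => (s0 + G * j) * P i = z0 + G * Q * j)).card ≤ 1 := by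
    intro i hi
    refine bad_one J _ ?_
    intro a b ha hb
    have cal : ∀ c : ℕ, (s0 + G * c) * P i = z0 + G * Q * c →
        ((t0 : ℤ) + G * c + D) * (Q - P i) = d := by
      intro c hc
      have h1 : (((s0 + G * c) * P i : ℕ) : ℤ) = ((z0 + G * Q * c : ℕ) : ℤ) := by rw [hc]
      push_cast at h1
      rw [hz0', hs0] at h1
      linarith
    have h2 := uniq (cal a ha) (cal b hb) (by omega)
    exact key a b (by linarith)
  have b6 : ∀ q ∈ range N ×ˢ range N, ((range (J + 1)).filter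
      (fun j => (s0 + G * j) * P q.1 = (t0 + G * j) * P q.2)).card ≤ 1 := by
    intro q hq
    rw [mem_product, mem_range, mem_range] at hq
    refine bad_one J _ ?_
    intro a b ha hb
    have cal : ∀ c : ℕ, (s0 + G * c) * P q.1 = (t0 + G * c) * P q.2 →
        ((t0 : ℤ) + G * c) * (P q.2 - P q.1) = D * P q.1 := by
      intro c hc
      have h1 : (((s0 + G * c) * P q.1 : ℕ) : ℤ) = (((t0 + G * c) * P q.2 : ℕ) : ℤ) := by rw [hc]
      push_cast at h1
      rw [hs0] at h1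
      linarith
    have hne : D * (P q.1 : ℤ) ≠ 0 := by
      refine mul_ne_zero hD0 ?_
      have := (hP q.1 hq.1).1
      omega
    exact key a b (uniq (cal a ha) (cal b hb) hne)
  -- a good parameter
  obtain ⟨j, hj, hgood⟩ : ∃ j ∈ range (J + 1), j ∉
      ((range N).biUnion (fun i => (range (J + 1)).filter (fun j => (t0 + G * j) * P i ∈ A)) ∪
      (range N).biUnion (fun i => (range (J + 1)).filter (fun j => (s0 + G * j) * P i ∈ A))) ∪
      ((range (J + 1)).filter (fun j => z0 + G * Q * j ∈ A) ∪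
      (range N).biUnion (fun i => (range (J + 1)).filter
        (fun j => (t0 + G * j) * P i = z0 + G * Q * j))) ∪
      ((range N).biUnion (fun i => (range (J + 1)).filter
        (fun j => (s0 + G * j) * P i = z0 + G * Q * j)) ∪
      (range N ×ˢ range N).biUnion (fun q => (range (J + 1)).filter
        (fun j => (s0 + G * j) * P q.1 = (t0 + G * j) * P q.2))) := by
    refine Finset.exists_mem_notMem_of_card_lt_card ?_
    have c1 := card_biUnion_le_card_mul (range N) (fun i => (range (J + 1)).filter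
      (fun j => (t0 + G * j) * P i ∈ A)) u (fun i hi => b1 i (mem_range.1 hi))
    have c2 := card_biUnion_le_card_mul (range N) (fun i => (range (J + 1)).filter
      (fun j => (s0 + G * j) * P i ∈ A)) u (fun i hi => b2 i (mem_range.1 hi))
    have c4 := card_biUnion_le_card_mul (range N) (fun i => (range (J + 1)).filter
      (fun j => (t0 + G * j) * P i = z0 + G * Q * j)) 1 (fun i hi => b4 i (mem_range.1 hi))
    have c5 := card_biUnion_le_card_mul (range N) (fun i => (range (J + 1)).filter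
      (fun j => (s0 + G * j) * P i = z0 + G * Q * j)) 1 (fun i hi => b5 i (mem_range.1 hi))
    have c6 := card_biUnion_le_card_mul (range N ×ˢ range N) (fun q => (range (J + 1)).filter
      (fun j => (s0 + G * j) * P q.1 = (t0 + G * j) * P q.2)) 1 b6
    rw [card_range] at c1 c2 c4 c5
    rw [card_product, card_range] at c6
    refine lt_of_le_of_lt ((card_union_le _ _).trans (add_le_add ((card_union_le _ _).trans
      (add_le_add ((card_union_le _ _).trans (add_le_add c1 c2))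
        ((card_union_le _ _).trans (add_le_add b3 c4))))
      ((card_union_le _ _).trans (add_le_add c5 c6)))) ?_
    rw [card_range, hJ]
    have h1 : N * u + N * u + u = (2 * N + 1) * u := by ring
    have h2 : (2 * N + 1) * u ≤ 2 * C * u := Nat.mul_le_mul_right _ (by omega)
    have h3 : (N + 1) ^ 2 ≤ (C + 2) ^ 2 := Nat.pow_le_pow_left (by omega) 2
    have h4 : (N + 1) ^ 2 = N * N + 2 * N + 1 := by ring
    omega
  simp only [mem_union, mem_biUnion, mem_filter, not_or, not_exists, not_and] at hgood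
  obtain ⟨⟨⟨k1, k2⟩, k3, k4⟩, k5, k6⟩ := hgood
  have hjJ : j ≤ J := by
    rw [mem_range] at hj
    omega
  have hGj : G * j + G ≤ T := by
    refine le_trans ?_ hGJ
    have : G * (j + 1) ≤ G * (J + 1) := Nat.mul_le_mul_left _ (by omega)
    rw [mul_add, mul_one] at this
    exact this
  refine ⟨t0 + G * j, s0 + G * j, z0 + G * Q * j, by omega, by omega, by omega, ?_, ?_, by omega,
    ?_, ?_, k3 hj, ?_, ?_, ?_⟩
  · push_cast
    rw [hs0]
    ring
  · push_cast
    rw [hz0']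
    ring
  · exact fun i hi => k1 i (mem_range.2 hi) hj
  · exact fun i hi => k2 i (mem_range.2 hi) hj
  · exact fun i hi => k4 i (mem_range.2 hi) hj
  · exact fun i hi => k5 i (mem_range.2 hi) hj
  · exact fun i hi k hk => k6 (i, k) (mem_product.2 ⟨mem_range.2 hi, mem_range.2 hk⟩) hj

section
variable {V : Type} [DecidableEq V]

/-- the class vector in terms of the two sets of discrepancies -/
theorem Mv_sdiff (Q : ℕ) (R : RT V) (W : Finset V) (f : V → ℕ) :
    Mv Q R W f = ∑ x ∈ Ds R W f \ Ls R W f, sg Q (x : ZMod Q) -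
      ∑ x ∈ Ls R W f \ Ds R W f, sg Q (x : ZMod Q) := by
  unfold Mv
  rw [Finset.sum_sdiff_sub_sum_sdiff]

/-- the invariant after a branch has been labelled by `TaskLf` -/
theorem Inv.stepLf {R : RT V} {m C n : ℕ} {p : ℕ → ℕ} {G u : ℕ} {W : Finset V} {f : V → ℕ}
    {rs : Finset V} {e : V → ℕ → V} (hsh : Shape C n p)
    (h : Pool.Agent.W322.HB.Inv R m C n p G u W f rs e) {r : V} (hr : r ∈ rs)
    {f' : V → ℕ} {x z : ℕ} {M : Finset ℕ} (hM : M.card ≤ n - 1) (hst : St R m (W ∪ vs n (e r)) f')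
    (hL : Ls R (W ∪ vs n (e r)) f' = Ls R W f ∪ insert x M)
    (hD : Ds R (W ∪ vs n (e r)) f' = Ds R W f ∪ insert z M) :
    Pool.Agent.W322.HB.Inv R m C n p G u (W ∪ vs n (e r)) f' (rs.erase r) e := by
  refine h.step hr hst ?_
  have h1 : Us R (W ∪ vs n (e r)) f' ⊆ Us R W f ∪ insert x (insert z M) := by
    unfold Us
    rw [hL, hD]
    intro y hy
    simp only [mem_union, mem_insert] at hy ⊢
    tauto
  have h2 := nb_le (G := G) h1
  have h3 : (insert x (insert z M)).card ≤ n + 1 := by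
    have h4 := card_insert_le x (insert z M)
    have h5 := card_insert_le z M
    have h6 := hsh.two
    omega
  have h7 := hsh.le
  have h8 := hsh.two
  omega

/-- one step: `x ∈ Ds \ Ls` and `d ∈ Ls \ Ds` cancel -/
theorem step2 (hLf : TaskLf) {R : RT V} {m C n κ Q u T S g₁ g₂ g₃ G : ℕ} {p : ℕ → ℕ}
    {W : Finset V} {f : V → ℕ} {rs : Finset V} {e : V → ℕ → V} {P : ℕ → ℕ}
    (hnum : Pool.Agent.W322.HB.Num C κ Q u T S g₁ g₂ g₃ G) (hsh : Shape C n p)
    (hinv : Pool.Agent.W322.HB.Inv R m C n p G u W f rs e)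
    (hpat : Pat p κ 0 (range (n - 1)) P) (hQP : Q = P (p (n - 1)))
    (hm : κ * (2 * S + T + 2) ≤ m) {x d : ℕ} (hx : x ∈ Ds R W f \ Ls R W f)
    (hd : d ∈ Ls R W f \ Ds R W f) (hxS : x ≤ S) (hdS : d ≤ S)
    (hcong : (x : ZMod Q) = (d : ZMod Q)) {r₁ r₂ : V} (hr₁ : r₁ ∈ rs) (hr₂ : r₂ ∈ rs.erase r₁) :
    ∃ f' : V → ℕ,
      Pool.Agent.W322.HB.Inv R m C n p G u (Wn n W rs ((rs.erase r₁).erase r₂) e) f'
        ((rs.erase r₁).erase r₂) e ∧
      Ds R (Wn n W rs ((rs.erase r₁).erase r₂) e) f' \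
        Ls R (Wn n W rs ((rs.erase r₁).erase r₂) e) f' = (Ds R W f \ Ls R W f).erase x ∧
      Ls R (Wn n W rs ((rs.erase r₁).erase r₂) e) f' \
        Ds R (Wn n W rs ((rs.erase r₁).erase r₂) e) f' = (Ls R W f \ Ds R W f).erase d := by
  have hWn : Wn n W rs ((rs.erase r₁).erase r₂) e = (W ∪ vs n (e r₁)) ∪ vs n (e r₂) := by
    rw [← Wn_trans (erase_subset r₁ rs) (erase_subset r₂ (rs.erase r₁)), Wn_erase hr₁,
      Wn_erase hr₂]
  rw [hWn]
  have hxD := (mem_sdiff.1 hx).1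
  have hxL := (mem_sdiff.1 hx).2
  have hdL := (mem_sdiff.1 hd).1
  have hdD := (mem_sdiff.1 hd).2
  have hx1 := one_le_of_mem_Ds hinv.st hxD
  have hd1 := one_le_of_mem_Ls hinv.st hdL
  have hxd : d ≠ x := by
    rintro rfl
    exact hdD hxD
  have hxU : x ∈ Us R W f := mem_union_right _ hxD
  have hdU : d ∈ Us R W f := mem_union_left _ hdL
  obtain ⟨D, hD⟩ : ∃ D : ℤ, D * Q = (d : ℤ) - x := by
    obtain ⟨D, hD⟩ := (Nat.modEq_iff_dvd).1 ((ZMod.natCast_eq_natCast_iff x d Q).1 hcong)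
    exact ⟨D, by rw [hD, mul_comm]⟩
  have hn2 := hsh.two
  have hnC := hsh.le
  have hQκ := hnum.hQκ
  have hQ1 := hnum.hQ
  have hκ := hnum.hκ
  have hA : ((Us R W f).filter (fun e => ¬ Nat.Coprime e G)).card ≤ u := by
    have := hinv.num
    unfold nb at this
    omega
  obtain ⟨t, t', z, a1, a2, a3, a4, a5, a6, a7, a8, a9, a10, a11, a12⟩ :=
    choose_t hnum (N := n - 1) (by omega) P
      (fun i hi => ⟨hpat.pos i (mem_range.2 hi), hpat.le i (mem_range.2 hi)⟩) hx1 hxS hd1 hdS hxd hD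
      (Us R W f) hA
  have hDS : |D| ≤ S := by
    have h1 : |D| * Q = |(d : ℤ) - x| := by rw [← hD, abs_mul, Nat.abs_cast]
    have h2 : |(d : ℤ) - x| ≤ S := by
      rw [abs_le]
      constructor <;> omega
    have h3 : (1 : ℤ) ≤ Q := by exact_mod_cast hQ1
    nlinarith [abs_nonneg D]
  have hDS' := abs_le.1 hDS
  have ht'le : t' ≤ 2 * S + T + 2 := by omega
  have htle : t ≤ 2 * S + T + 2 := by omega
  have htm : t * κ ≤ m := by
    refine le_trans ?_ hm
    rw [mul_comm]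
    exact Nat.mul_le_mul_left _ htle
  have ht'm : t' * κ ≤ m := by
    refine le_trans ?_ hm
    rw [mul_comm]
    exact Nat.mul_le_mul_left _ ht'le
  have hSm : S ≤ m := by
    refine le_trans ?_ hm
    calc S ≤ 1 * (2 * S + T + 2) := by omega
      _ ≤ κ * (2 * S + T + 2) := Nat.mul_le_mul_right _ hκ
  have hzx : z + x = t * Q := by
    have h1 : ((z + x : ℕ) : ℤ) = ((t * Q : ℕ) : ℤ) := by push_cast; linarith
    exact_mod_cast h1
  have htQ : t * Q ≤ m := (Nat.mul_le_mul_left _ hQκ).trans htm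
  have hzL : z ∉ Ls R W f := fun h => a9 (mem_union_left _ h)
  have hzD : z ∉ Ds R W f := fun h => a9 (mem_union_right _ h)
  -- the first branch
  obtain ⟨f₁, -, hst₁, hL₁, hD₁⟩ := hLf V R m C n κ p W f (e r₁) P t x z hsh hinv.st
    (hinv.fam.br r₁ hr₁) (hinv.fam.disW r₁ hr₁) hpat (by omega) htm hx1 (hxS.trans hSm) hxL a7
    (fun i hi h => a7 i hi (h ▸ hxU)) (by
      rw [← hQP]
      push_cast
      omega) hzD a10
  have hM : ∀ s : ℕ, ((range (n - 1)).image (fun i => s * P i)).card ≤ n - 1 := by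
    intro s
    have := card_image_le (s := range (n - 1)) (f := fun i => s * P i)
    rwa [card_range] at this
  have hinv₁ := Inv.stepLf hsh hinv hr₁ (hM t) hst₁ hL₁ hD₁
  -- the second branch
  have hz2 : d = Int.natAbs ((z : ℤ) - (t' * P (p (n - 1)) : ℕ)) := by
    rw [← hQP]
    have h1 : (z : ℤ) - ((t' * Q : ℕ) : ℤ) = -(d : ℤ) := by
      push_cast
      rw [a4, a5]
      linarith
    rw [h1, Int.natAbs_neg, Int.natAbs_natCast]
  obtain ⟨f₂, -, hst₂, hL₂, hD₂⟩ := hLf V R m C n κ p (W ∪ vs n (e r₁)) f₁ (e r₂) P t' z d hsh hst₁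
    (hinv₁.fam.br r₂ hr₂) (hinv₁.fam.disW r₂ hr₂) hpat a3 ht'm a6 (by omega)
    (by
      rw [hL₁]
      simp only [mem_union, mem_insert, mem_image, mem_range, not_or, not_exists, not_and]
      exact ⟨hzL, fun h => a9 (h ▸ hxU), fun i hi => a10 i hi⟩)
    (by
      intro i hi
      unfold Us
      rw [hL₁, hD₁]
      simp only [mem_union, mem_insert, mem_image, mem_range, not_or, not_exists, not_and]
      have h8 := a8 i hi
      unfold Us at h8
      rw [mem_union, not_or] at h8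
      exact ⟨⟨h8.1, fun h => a8 i hi (h ▸ hxU), fun k hk h => a12 i hi k hk h.symm⟩, h8.2,
        a11 i hi, fun k hk h => a12 i hi k hk h.symm⟩)
    a11 hz2
    (by
      rw [hD₁]
      simp only [mem_union, mem_insert, mem_image, mem_range, not_or, not_exists, not_and]
      exact ⟨hdD, fun h => a9 (h ▸ hdU), fun i hi h => a7 i hi (h ▸ hdU)⟩)
    (fun i hi h => a8 i hi (h ▸ hdU))
  have hinv₂ := Inv.stepLf hsh hinv₁ hr₂ (hM t') hst₂ hL₂ hD₂
  refine ⟨f₂, hinv₂, ?_, ?_⟩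
  · rw [hL₂, hD₂, hL₁, hD₁]
    ext y
    simp only [mem_union, mem_insert, mem_image, mem_range, mem_sdiff, mem_erase, not_or,
      not_exists, not_and]
    constructor
    · rintro ⟨h1, ⟨h2, h3, h4⟩, h5, h6⟩
      rcases h1 with (h1 | h1 | ⟨i, hi, h1⟩) | h1 | ⟨i, hi, h1⟩
      · exact ⟨h3, h1, h2⟩
      · exact absurd h1 h5
      · exact absurd h1 (h4 i hi)
      · exact absurd (h1 ▸ hdL) h2
      · exact absurd h1 (h6 i hi)
    · rintro ⟨h1, h2, h3⟩
      have hyU : y ∈ Us R W f := mem_union_right _ h2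
      exact ⟨Or.inl (Or.inl h2), ⟨h3, h1, fun i hi h => a7 i hi (h ▸ hyU)⟩,
        fun h => a9 (h ▸ hyU), fun i hi h => a8 i hi (h ▸ hyU)⟩
  · rw [hL₂, hD₂, hL₁, hD₁]
    ext y
    simp only [mem_union, mem_insert, mem_image, mem_range, mem_sdiff, mem_erase, not_or,
      not_exists, not_and]
    constructor
    · rintro ⟨h1, ⟨h2, h3, h4⟩, h5, h6⟩
      rcases h1 with (h1 | h1 | ⟨i, hi, h1⟩) | h1 | ⟨i, hi, h1⟩
      · exact ⟨h5, h1, h2⟩
      · exact absurd (h1 ▸ hxD) h2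
      · exact absurd h1 (h4 i hi)
      · exact absurd h1 h3
      · exact absurd h1 (h6 i hi)
    · rintro ⟨h1, h2, h3⟩
      have hyU : y ∈ Us R W f := mem_union_left _ h2
      exact ⟨Or.inl (Or.inl h2), ⟨h3, fun h => a9 (h ▸ hyU), fun i hi h => a7 i hi (h ▸ hyU)⟩,
        h1, fun i hi h => a8 i hi (h ▸ hyU)⟩

end

theorem taskC2 : TaskC2 := by
  intro hLf V _ R m C n κ Q u T S g₁ g₂ g₃ G p W f rs e P hnum hsh hinv hpat hQP hLS hDS hm hMv hcard
  obtain ⟨k, hk⟩ : ∃ k, (Ds R W f \ Ls R W f).card = k := ⟨_, rfl⟩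
  induction k generalizing W f rs with
  | zero =>
    refine ⟨f, rs, Finset.Subset.refl _, ?_, ?_⟩
    · rw [Wn_self]
      exact hinv
    · rw [Wn_self]
      have h1 := card_DL hinv.st
      rw [hk] at h1
      have h2 := card_eq_zero.1 hk
      have h3 := card_eq_zero.1 h1.symm
      exact Finset.Subset.antisymm (sdiff_eq_empty_iff_subset.1 h3) (sdiff_eq_empty_iff_subset.1 h2)
  | succ k ih =>
    obtain ⟨x, hx⟩ : (Ds R W f \ Ls R W f).Nonempty := by
      rw [← card_pos]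
      omega
    -- an element `d` in the same class
    obtain ⟨d, hd, hxd⟩ : ∃ d ∈ Ls R W f \ Ds R W f, (x : ZMod Q) = (d : ZMod Q) := by
      by_contra hcon
      push Not at hcon
      have h1 := congrFun hMv (x : ZMod Q)
      rw [Mv_sdiff, Pi.sub_apply, Finset.sum_apply, Finset.sum_apply, Pi.zero_apply] at h1
      have h2 : ∑ y ∈ Ls R W f \ Ds R W f, sg Q (y : ZMod Q) (x : ZMod Q) = 0 := by
        refine Finset.sum_eq_zero fun y hy => ?_
        unfold sg
        rw [Pi.single_eq_of_ne (hcon y hy)]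
      have h3 : (1 : ℤ) ≤ ∑ y ∈ Ds R W f \ Ls R W f, sg Q (y : ZMod Q) (x : ZMod Q) := by
        have h4 : sg Q (x : ZMod Q) (x : ZMod Q) = 1 := by
          unfold sg
          rw [Pi.single_eq_same]
        rw [← h4]
        refine Finset.single_le_sum (f := fun y : ℕ => sg Q (y : ZMod Q) (x : ZMod Q)) ?_ hx
        intro y _
        unfold sg
        by_cases hxy : (x : ZMod Q) = (y : ZMod Q)
        · rw [hxy, Pi.single_eq_same]
          norm_num
        · rw [Pi.single_eq_of_ne hxy]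
      rw [h2] at h1
      linarith
    obtain ⟨r₁, hr₁⟩ : rs.Nonempty := by
      rw [← card_pos]
      omega
    have hc1 := card_erase_add_one hr₁
    obtain ⟨r₂, hr₂⟩ : (rs.erase r₁).Nonempty := by
      rw [← card_pos]
      omega
    have hc2 := card_erase_add_one hr₂
    obtain ⟨f', hinv', hD', hL'⟩ := step2 hLf hnum hsh hinv hpat hQP hm hx hd (hDS x hx) (hLS d hd)
      hxd hr₁ hr₂
    have hcx := card_erase_add_one hx
    obtain ⟨f'', rs', hrs', hinv'', hfin⟩ := ih (Wn n W rs ((rs.erase r₁).erase r₂) e) f'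
      ((rs.erase r₁).erase r₂) hinv'
      (fun y hy => by
        rw [hL'] at hy
        exact hLS y (mem_of_mem_erase hy))
      (fun y hy => by
        rw [hD'] at hy
        exact hDS y (mem_of_mem_erase hy))
      (by
        rw [Mv_sdiff, hD', hL', ← hMv, Mv_sdiff]
        rw [← Finset.add_sum_erase _ _ hx, ← Finset.add_sum_erase _ _ hd, hxd]
        abel)
      (by
        rw [hD']
        omega)
      (by
        rw [hD']
        omega)
    have hsub : (rs.erase r₁).erase r₂ ⊆ rs := (erase_subset _ _).trans (erase_subset _ _)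
    rw [Wn_trans hsub hrs'] at hinv'' hfin
    exact ⟨f'', rs', hrs'.trans hsub, hinv'', hfin⟩

end Pool.Agent.W405.HB
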